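import Pool.Agent.W128.VA.Stm2

/-!
# VA-CLO: a subspace stable under the modes of the generators is a submodule
-/

set_option autoImplicit false

namespace Pool.Agent.W14.VA.Clo

open Finset Pool.Agent.W128.VA

/-- One step: if `u` preserves `N` (all modes) and `v` too then `u_k v` preserves `N`. -/
theorem step {A : VOA} {M : Type*} [AddCommGroup M] [Module ℂ M] (X : AdmMod A M)
    (N : Submodule ℂ M) (u v : A.V) (hu : ∀ (n : ℤ), ∀ w ∈ N, X.Y u n w ∈ N)
    (hv : ∀ (n : ℤ), ∀ w ∈ N, X.Y v n w ∈ N) (k n : ℤ) (w : M) (hw : w ∈ N) :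
    X.Y (A.Y u k v) n w ∈ N := by
  obtain ⟨N1, h1⟩ := A.trunc u v
  obtain ⟨N2, h2⟩ := X.trunc v w
  obtain ⟨N3, h3⟩ := X.trunc u w
  set L : ℕ := (N1 - k).toNat + (N2 - n).toNat + N3.toNat + 1 with hL
  have hb := X.borcherds u v w k 0 n L (fun j hj => h1 _ (by omega)) (fun j hj => h2 _ (by omega))
    (fun j hj => h3 _ (by omega))
  have hl : ∑ j ∈ range L, bi 0 j • X.Y (A.Y u (k + j) v) (0 + n - j) w
      = X.Y (A.Y u k v) n w := by
    rw [Finset.sum_eq_single 0]
    · simp [bi]
    · intro j _ hj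
      obtain ⟨i, rfl⟩ := Nat.exists_eq_succ_of_ne_zero hj
      simp [bi, Ring.choose_zero_succ]
    · intro h0
      exact absurd (Finset.mem_range.2 (by omega)) h0
  rw [hl] at hb
  rw [hb]
  refine N.sum_mem fun j _ => N.smul_mem _ (N.sub_mem ?_ (N.smul_mem _ ?_))
  · exact hu _ _ (hv _ _ hw)
  · exact hv _ _ (hu _ _ hw)

theorem main.{u} : S_CLO.{u} := by
  intro A h e f hA M _ _ X N hN u n w hw
  let U : Submodule ℂ A.V :=
    { carrier := {v | ∀ (n : ℤ), ∀ w ∈ N, X.Y v n w ∈ N}
      zero_mem' := by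
        intro n w hw
        simp
      add_mem' := by
        intro a b ha hb n w hw
        have : X.Y (a + b) n w = X.Y a n w + X.Y b n w := by simp
        rw [this]
        exact N.add_mem (ha n w hw) (hb n w hw)
      smul_mem' := by
        intro c a ha n w hw
        have : X.Y (c • a) n w = c • X.Y a n w := by simp
        rw [this]
        exact N.smul_mem c (ha n w hw) }
  have hU : U = ⊤ := by
    refine hA.gen U ?_ ?_ ?_ ?_
    · intro n w hw
      rw [X.vac]
      split_ifs
      · exact hw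
      · exact N.zero_mem
    · intro k v hv n w hw
      exact step X N h v hN.1 hv k n w hw
    · intro k v hv n w hw
      exact step X N e v hN.2.1 hv k n w hw
    · intro k v hv n w hw
      exact step X N f v hN.2.2 hv k n w hw
  have : u ∈ U := by rw [hU]; trivial
  exact this n w hw

end Pool.Agent.W14.VA.Clo
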